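import Mathlib

set_option autoImplicit false

open Set Filter Topology

namespace Pool.Agent.Results.MP_bb0bf1_gt.Char

universe u

variable {X : Type u} [TopologicalSpace X]

/-- `S` is increasing (upward closed) for the relation `R`. -/
def Inc (R : X → X → Prop) (S : Set X) : Prop := ∀ x y, R x y → x ∈ S → y ∈ S

/-- `S` is decreasing (downward closed) for the relation `R`. -/
def Dec (R : X → X → Prop) (S : Set X) : Prop := ∀ x y, R x y → y ∈ S → x ∈ S

/-- Normality of the relation `R` (in the sense of Nachbin). -/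
def Nrm (R : X → X → Prop) : Prop :=
  ∀ A B : Set X, IsClosed A → Dec R A → IsClosed B → Inc R B → Disjoint A B →
    ∃ U V : Set X, IsOpen U ∧ Dec R U ∧ IsOpen V ∧ Inc R V ∧ A ⊆ U ∧ B ⊆ V ∧ Disjoint U V

omit [TopologicalSpace X] in
lemma Inc.compl {R : X → X → Prop} {S : Set X} (h : Inc R S) : Dec R Sᶜ :=
  fun x y hxy hy hx => hy (h x y hxy hx)

omit [TopologicalSpace X] in
lemma Dec.compl {R : X → X → Prop} {S : Set X} (h : Dec R S) : Inc R Sᶜ :=
  fun x y hxy hx hy => hx (h x y hxy hy)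

/-- Ordered Urysohn lemma. -/
lemma urysohn {R : X → X → Prop} (hN : Nrm R) {A B : Set X} (hA : IsClosed A) (hAd : Dec R A)
    (hB : IsClosed B) (hBi : Inc R B) (hAB : Disjoint A B) :
    ∃ f : X → ℝ, Continuous f ∧ (∀ x y, R x y → f x ≤ f y) ∧ (∀ x ∈ A, f x = 0) ∧
      (∀ x ∈ B, f x = 1) := by
  let P : Set X → Set X → Prop := fun c u =>
    Dec R u ∧ ∃ C, IsClosed C ∧ Dec R C ∧ c ⊆ C ∧ C ⊆ u
  have hP : ∀ {c u : Set X}, IsClosed c → P c u → IsOpen u → c ⊆ u →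
      ∃ (v : Set X), IsOpen v ∧ c ⊆ v ∧ closure v ⊆ u ∧ P c v ∧ P (closure v) u := by
    rintro c u hc ⟨hu, C, hC, hCd, hcC, hCu⟩ huo hcu
    obtain ⟨U, V, hU, hUd, hV, hVi, hCU, huV, hUV⟩ := hN C uᶜ hC hCd huo.isClosed_compl hu.compl
      (disjoint_compl_right_iff_subset.2 hCu)
    have hVc : IsClosed Vᶜ := hV.isClosed_compl
    have hUVc : U ⊆ Vᶜ := hUV.subset_compl_right
    have hVu : Vᶜ ⊆ u := compl_subset_comm.1 huV
    have hcl : closure U ⊆ Vᶜ := closure_minimal hUVc hVc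
    exact ⟨U, hU, hcC.trans hCU, hcl.trans hVu, ⟨hUd, C, hC, hCd, hcC, hCU⟩,
      ⟨hu, Vᶜ, hVc, hVi.compl, hcl, hVu⟩⟩
  let c : Urysohns.CU P :=
    { C := A
      U := Bᶜ
      P_C_U := ⟨hBi.compl, A, hA, hAd, Subset.rfl, hAB.subset_compl_right⟩
      closed_C := hA
      open_U := hB.isOpen_compl
      subset := hAB.subset_compl_right
      hP := hP }
  have mono : ∀ (n : ℕ) (c : Urysohns.CU P) (x y : X), R x y → c.approx n x ≤ c.approx n y := by
    intro n
    induction n with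
    | zero =>
      intro c x y hxy
      simp only [Urysohns.CU.approx]
      by_cases hx : x ∈ c.U
      · rw [indicator_of_notMem (by simpa using hx)]
        exact indicator_nonneg (fun _ _ => zero_le_one) _
      · have hy : y ∉ c.U := fun hy => hx (c.P_C_U.1 x y hxy hy)
        rw [indicator_of_mem (by simpa using hx), indicator_of_mem (by simpa using hy)]
        rfl
    | succ n ih =>
      intro c x y hxy
      simp only [Urysohns.CU.approx]
      exact midpoint_le_midpoint (ih _ _ _ hxy) (ih _ _ _ hxy)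
  refine ⟨c.lim, c.continuous_lim, ?_, fun x hx => c.lim_of_mem_C x hx,
    fun x hx => c.lim_of_notMem_U x (by simpa [c] using hx)⟩
  intro x y hxy
  exact le_of_tendsto_of_tendsto' (c.tendsto_approx_atTop x) (c.tendsto_approx_atTop y)
    fun n => mono n c x y hxy

/-- The upward closure of a compact set is closed. -/
lemma isClosed_up {R : X → X → Prop} (hR : IsClosed {p : X × X | R p.1 p.2}) {K : Set X}
    (hK : IsCompact K) : IsClosed {y | ∃ x ∈ K, R x y} := by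
  rw [← isOpen_compl_iff, isOpen_iff_mem_nhds]
  intro y hy
  have h1 : K ×ˢ ({y} : Set X) ⊆ {p : X × X | R p.1 p.2}ᶜ := by
    rintro ⟨a, b⟩ ⟨ha, hb⟩ hab
    rw [mem_singleton_iff] at hb
    simp only at hb ha
    subst hb
    exact hy ⟨a, ha, hab⟩
  obtain ⟨u, v, _, hv, hKu, hyv, huv⟩ := generalized_tube_lemma hK isCompact_singleton
    hR.isOpen_compl h1
  refine mem_of_superset (hv.mem_nhds (hyv rfl)) ?_
  rintro z hz ⟨a, ha, haz⟩
  exact huv (mk_mem_prod (hKu ha) hz) haz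

/-- The downward closure of a compact set is closed. -/
lemma isClosed_down {R : X → X → Prop} (hR : IsClosed {p : X × X | R p.1 p.2}) {K : Set X}
    (hK : IsCompact K) : IsClosed {x | ∃ y ∈ K, R x y} := by
  have hR' : IsClosed {p : X × X | (fun a b => R b a) p.1 p.2} :=
    hR.preimage (continuous_swap (X := X) (Y := X))
  exact isClosed_up hR' hK

/-- Nachbin: a closed preorder on a compact Hausdorff space is normal. -/
lemma nrm_of_compact [CompactSpace X] [T2Space X] {R : X → X → Prop} (hr : ∀ x, R x x)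
    (ht : ∀ x y z, R x y → R y z → R x z) (hR : IsClosed {p : X × X | R p.1 p.2}) : Nrm R := by
  intro A B hA hAd hB hBi hAB
  obtain ⟨U, V, hU, hV, hAU, hBV, hUV⟩ := normal_separation hA hB hAB
  refine ⟨{y | ∃ x ∈ Uᶜ, R x y}ᶜ, {x | ∃ y ∈ Vᶜ, R x y}ᶜ,
    (isClosed_up hR hU.isClosed_compl.isCompact).isOpen_compl, ?_,
    (isClosed_down hR hV.isClosed_compl.isCompact).isOpen_compl, ?_, ?_, ?_, ?_⟩
  · rintro x y hxy hy ⟨w, hw, hwx⟩
    exact hy ⟨w, hw, ht _ _ _ hwx hxy⟩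
  · rintro x y hxy hx ⟨w, hw, hyw⟩
    exact hx ⟨w, hw, ht _ _ _ hxy hyw⟩
  · rintro a ha ⟨w, hw, hwa⟩
    exact hw (hAU (hAd w a hwa ha))
  · rintro b hb ⟨w, hw, hbw⟩
    exact hw (hBV (hBi b w hbw hb))
  · rw [Set.disjoint_left]
    intro x hx1 hx2
    have h1 : x ∈ U := by
      by_contra h; exact hx1 ⟨x, h, hr x⟩
    have h2 : x ∈ V := by
      by_contra h; exact hx2 ⟨x, h, hr x⟩
    exact Set.disjoint_left.1 hUV h1 h2

/-- Ordered Urysohn function on a compact subset. -/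
lemma compact_fun [T2Space X] {R : X → X → Prop} (hr : ∀ x, R x x)
    (ht : ∀ x y z, R x y → R y z → R x z) (hR : IsClosed {p : X × X | R p.1 p.2})
    {K A B : Set X} (hK : IsCompact K) (hA : IsClosed A) (hB : IsClosed B)
    (hAd : ∀ x ∈ K, ∀ y ∈ K, R x y → y ∈ A → x ∈ A)
    (hBi : ∀ x ∈ K, ∀ y ∈ K, R x y → x ∈ B → y ∈ B) (hAB : ∀ x ∈ K, x ∈ A → x ∈ B → False) :
    ∃ g : X → ℝ, ContinuousOn g K ∧ (∀ x ∈ K, ∀ y ∈ K, R x y → g x ≤ g y) ∧
      (∀ x ∈ K, x ∈ A → g x = 0) ∧ (∀ x ∈ K, x ∈ B → g x = 1) := by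
  classical
  have : CompactSpace K := isCompact_iff_compactSpace.1 hK
  let R' : K → K → Prop := fun a b => R a b
  have hR' : IsClosed {p : K × K | R' p.1 p.2} := by
    have : Continuous fun p : K × K => ((p.1 : X), (p.2 : X)) := by fun_prop
    exact hR.preimage this
  have hN : Nrm R' := nrm_of_compact (fun x => hr x) (fun x y z => ht x y z) hR'
  obtain ⟨f, hf, hfm, hf0, hf1⟩ := urysohn hN (A := Subtype.val ⁻¹' A) (B := Subtype.val ⁻¹' B)
    (hA.preimage continuous_subtype_val) (fun x y hxy hy => hAd x x.2 y y.2 hxy hy)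
    (hB.preimage continuous_subtype_val) (fun x y hxy hx => hBi x x.2 y y.2 hxy hx)
    (Set.disjoint_left.2 fun x h1 h2 => hAB x x.2 h1 h2)
  refine ⟨fun x => if h : x ∈ K then f ⟨x, h⟩ else 0, ?_, ?_, ?_, ?_⟩
  · rw [continuousOn_iff_continuous_domRestrict]
    convert hf using 1
    ext x
    simp
  · intro x hx y hy hxy
    simp only [hx, hy, dif_pos]
    exact hfm _ _ hxy
  · intro x hx hxA
    simp only [hx, dif_pos]
    exact hf0 _ hxA
  · intro x hx hxB
    simp only [hx, dif_pos]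
    exact hf1 _ hxB


/-- Dependent choice for sequences. -/
lemma exists_seq {α : Type*} (Inv : ℕ → α → Prop) (Step : ℕ → α → α → Prop)
    (h0 : ∃ p, Inv 0 p) (hs : ∀ n p, Inv n p → ∃ p', Inv (n + 1) p' ∧ Step n p p') :
    ∃ f : ℕ → α, ∀ n, Inv n (f n) ∧ Step n (f n) (f (n + 1)) := by
  classical
  obtain ⟨p0, hp0⟩ := h0
  choose! F hF using hs
  let f : ℕ → α := fun n => Nat.rec p0 (fun n p => F n p) n
  have hf : ∀ n, Inv n (f n) := by
    intro n
    induction n with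
    | zero => exact hp0
    | succ n ih => exact (hF n (f n) ih).1
  exact ⟨f, fun n => ⟨hf n, (hF n (f n) (hf n)).2⟩⟩

/-- Normality when the non-isolated points lie in a locally compact `σ`-compact open part. -/
lemma nrm_of_exhaustion [T2Space X] {R : X → X → Prop} (hr : ∀ x, R x x)
    (ht : ∀ x y z, R x y → R y z → R x z) (hR : IsClosed {p : X × X | R p.1 p.2})
    (K : ℕ → Set X) (hK : ∀ n, IsCompact (K n)) (hKi : ∀ n, K n ⊆ interior (K (n + 1)))
    (hiso : ∀ x, x ∉ ⋃ n, K n → IsOpen ({x} : Set X)) : Nrm R := by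
  classical
  intro A B hA hAd hB hBi hAB
  have hKmono : Monotone K := monotone_nat_of_le_succ fun n => (hKi n).trans interior_subset
  let Inv : ℕ → Set X × Set X → Prop := fun n p =>
    IsCompact p.1 ∧ IsCompact p.2 ∧ p.1 ⊆ K n ∧ p.2 ⊆ K n ∧ (∀ v ∈ p.2, ∀ u ∈ p.1, ¬ R v u) ∧
      (∀ u ∈ p.1, u ∉ B) ∧ (∀ v ∈ p.2, v ∉ A)
  let Step : ℕ → Set X × Set X → Set X × Set X → Prop := fun n p q =>
    (∀ x ∈ K (n + 1), (x ∈ A ∨ ∃ u ∈ p.1, R x u) → x ∈ q.1) ∧
    (∀ x ∈ K (n + 1), (x ∈ B ∨ ∃ v ∈ p.2, R v x) → x ∈ q.2) ∧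
    (∀ x ∈ K n, (x ∈ A ∨ ∃ u ∈ p.1, R x u) → q.1 ∈ 𝓝 x) ∧
    (∀ x ∈ K n, (x ∈ B ∨ ∃ v ∈ p.2, R v x) → q.2 ∈ 𝓝 x)
  obtain ⟨f, hf⟩ := exists_seq Inv Step
    ⟨(∅, ∅), isCompact_empty, isCompact_empty, empty_subset _, empty_subset _, by simp, by simp,
      by simp⟩ (by
    rintro n ⟨U, V⟩ ⟨hU, hV, hUK, hVK, hVU, hUB, hVA⟩
    have hA' : IsClosed (A ∪ {x | ∃ u ∈ U, R x u}) := hA.union (isClosed_down hR hU)
    have hB' : IsClosed (B ∪ {x | ∃ v ∈ V, R v x}) := hB.union (isClosed_up hR hV)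
    obtain ⟨g, hg, hgm, hg0, hg1⟩ := compact_fun hr ht hR (hK (n + 1)) hA' hB'
      (by
        rintro x _ y _ hxy (hy | ⟨u, hu, hyu⟩)
        · exact Or.inl (hAd x y hxy hy)
        · exact Or.inr ⟨u, hu, ht _ _ _ hxy hyu⟩)
      (by
        rintro x _ y _ hxy (hx | ⟨v, hv, hvx⟩)
        · exact Or.inl (hBi x y hxy hx)
        · exact Or.inr ⟨v, hv, ht _ _ _ hvx hxy⟩)
      (by
        rintro x _ (hx | ⟨u, hu, hxu⟩) (hx' | ⟨v, hv, hvx⟩)
        · exact Set.disjoint_left.1 hAB hx hx'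
        · exact hVA v hv (hAd v x hvx hx)
        · exact hUB u hu (hBi x u hxu hx')
        · exact hVU v hv u hu (ht _ _ _ hvx hxu))
    refine ⟨({x ∈ K (n + 1) | g x ≤ 1 / 3}, {x ∈ K (n + 1) | 2 / 3 ≤ g x}),
      ⟨?_, ?_, fun x hx => hx.1, fun x hx => hx.1, ?_, ?_, ?_⟩, ?_, ?_, ?_, ?_⟩
    · have : IsClosed (K (n + 1) ∩ g ⁻¹' Iic (1 / 3)) :=
        hg.preimage_isClosed_of_isClosed (hK (n + 1)).isClosed isClosed_Iic
      exact (hK (n + 1)).of_isClosed_subset this inter_subset_left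
    · have : IsClosed (K (n + 1) ∩ g ⁻¹' Ici (2 / 3)) :=
        hg.preimage_isClosed_of_isClosed (hK (n + 1)).isClosed isClosed_Ici
      exact (hK (n + 1)).of_isClosed_subset this inter_subset_left
    · rintro v ⟨hv, hv'⟩ u ⟨hu, hu'⟩ hvu
      have := hgm v hv u hu hvu
      linarith
    · rintro u ⟨hu, hu'⟩ huB
      have := hg1 u hu (Or.inl huB)
      linarith
    · rintro v ⟨hv, hv'⟩ hvA
      have := hg0 v hv (Or.inl hvA)
      linarith
    · intro x hx hx'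
      exact ⟨hx, by rw [hg0 x hx hx']; norm_num⟩
    · intro x hx hx'
      exact ⟨hx, by rw [hg1 x hx hx']; norm_num⟩
    · intro x hx hx'
      have hx1 : x ∈ K (n + 1) := hKmono (Nat.le_succ n) hx
      have hn : K (n + 1) ∈ 𝓝 x := mem_interior_iff_mem_nhds.1 (hKi n hx)
      have hgc : ContinuousAt g x := hg.continuousAt hn
      have : ∀ᶠ y in 𝓝 x, g y < 1 / 3 :=
        hgc.eventually_lt_const (by rw [hg0 x hx1 hx']; norm_num)
      filter_upwards [this, hn] with y hy hy2 using ⟨hy2, hy.le⟩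
    · intro x hx hx'
      have hx1 : x ∈ K (n + 1) := hKmono (Nat.le_succ n) hx
      have hn : K (n + 1) ∈ 𝓝 x := mem_interior_iff_mem_nhds.1 (hKi n hx)
      have hgc : ContinuousAt g x := hg.continuousAt hn
      have : ∀ᶠ y in 𝓝 x, 2 / 3 < g y :=
        hgc.eventually_const_lt (by rw [hg1 x hx1 hx']; norm_num)
      filter_upwards [this, hn] with y hy hy2 using ⟨hy2, hy.le⟩)
  set U : ℕ → Set X := fun n => (f n).1 with hUdef
  set V : ℕ → Set X := fun n => (f n).2 with hVdef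
  have hUK : ∀ n, U n ⊆ K n := fun n => (hf n).1.2.2.1
  have hVK : ∀ n, V n ⊆ K n := fun n => (hf n).1.2.2.2.1
  have hVU : ∀ n, ∀ v ∈ V n, ∀ u ∈ U n, ¬ R v u := fun n => (hf n).1.2.2.2.2.1
  have s1 : ∀ n, ∀ x ∈ K (n + 1), (x ∈ A ∨ ∃ u ∈ U n, R x u) → x ∈ U (n + 1) :=
    fun n => (hf n).2.1
  have s2 : ∀ n, ∀ x ∈ K (n + 1), (x ∈ B ∨ ∃ v ∈ V n, R v x) → x ∈ V (n + 1) :=
    fun n => (hf n).2.2.1
  have s3 : ∀ n, ∀ x ∈ K n, (x ∈ A ∨ ∃ u ∈ U n, R x u) → U (n + 1) ∈ 𝓝 x := fun n => (hf n).2.2.2.1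
  have s4 : ∀ n, ∀ x ∈ K n, (x ∈ B ∨ ∃ v ∈ V n, R v x) → V (n + 1) ∈ 𝓝 x := fun n => (hf n).2.2.2.2
  have hUmono : Monotone U := monotone_nat_of_le_succ fun n x hx =>
    s1 n x (hKmono (Nat.le_succ n) (hUK n hx)) (Or.inr ⟨x, hx, hr x⟩)
  have hVmono : Monotone V := monotone_nat_of_le_succ fun n x hx =>
    s2 n x (hKmono (Nat.le_succ n) (hVK n hx)) (Or.inr ⟨x, hx, hr x⟩)
  set UW : Set X := ⋃ n, U n with hUW
  set VW : Set X := ⋃ n, V n with hVW
  have hnoVU : ∀ v ∈ VW, ∀ u ∈ UW, ¬ R v u := by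
    intro v hv u hu hvu
    obtain ⟨n, hn⟩ := mem_iUnion.1 hv
    obtain ⟨m, hm⟩ := mem_iUnion.1 hu
    exact hVU (max n m) v (hVmono (le_max_left n m) hn) u (hUmono (le_max_right n m) hm) hvu
  have hUdec : ∀ x ∈ ⋃ n, K n, (x ∈ A ∨ ∃ u ∈ UW, R x u) → x ∈ UW := by
    rintro x hx hx'
    obtain ⟨n, hn⟩ := mem_iUnion.1 hx
    rcases hx' with hx' | ⟨u, hu, hxu⟩
    · exact mem_iUnion.2 ⟨n + 1, s1 n x (hKmono (Nat.le_succ n) hn) (Or.inl hx')⟩
    · obtain ⟨m, hm⟩ := mem_iUnion.1 hu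
      refine mem_iUnion.2 ⟨max n m + 1, s1 _ x (hKmono (by omega) hn) (Or.inr ⟨u, ?_, hxu⟩)⟩
      exact hUmono (le_max_right n m) hm
  have hVinc : ∀ x ∈ ⋃ n, K n, (x ∈ B ∨ ∃ v ∈ VW, R v x) → x ∈ VW := by
    rintro x hx hx'
    obtain ⟨n, hn⟩ := mem_iUnion.1 hx
    rcases hx' with hx' | ⟨v, hv, hvx⟩
    · exact mem_iUnion.2 ⟨n + 1, s2 n x (hKmono (Nat.le_succ n) hn) (Or.inl hx')⟩
    · obtain ⟨m, hm⟩ := mem_iUnion.1 hv
      refine mem_iUnion.2 ⟨max n m + 1, s2 _ x (hKmono (by omega) hn) (Or.inr ⟨v, ?_, hvx⟩)⟩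
      exact hVmono (le_max_right n m) hm
  have hUWn : ∀ x ∈ UW, UW ∈ 𝓝 x := by
    intro x hx
    obtain ⟨n, hn⟩ := mem_iUnion.1 hx
    exact mem_of_superset (s3 n x (hUK n hn) (Or.inr ⟨x, hn, hr x⟩)) (subset_iUnion U (n + 1))
  have hVWn : ∀ x ∈ VW, VW ∈ 𝓝 x := by
    intro x hx
    obtain ⟨n, hn⟩ := mem_iUnion.1 hx
    exact mem_of_superset (s4 n x (hVK n hn) (Or.inr ⟨x, hn, hr x⟩)) (subset_iUnion V (n + 1))
  have hUWK : UW ⊆ ⋃ n, K n := iUnion_mono hUK
  have hVWK : VW ⊆ ⋃ n, K n := iUnion_mono hVK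
  refine ⟨A ∪ {x | ∃ u ∈ UW, R x u}, B ∪ {x | ∃ v ∈ VW, R v x}, ?_, ?_, ?_, ?_,
    subset_union_left, subset_union_left, ?_⟩
  · rw [isOpen_iff_mem_nhds]
    intro x hx
    by_cases hxK : x ∈ ⋃ n, K n
    · refine mem_of_superset (hUWn x (hUdec x hxK hx)) ?_
      intro y hy
      exact Or.inr ⟨y, hy, hr y⟩
    · exact mem_of_superset ((hiso x hxK).mem_nhds rfl) (singleton_subset_iff.2 hx)
  · rintro x y hxy (hy | ⟨u, hu, hyu⟩)
    · exact Or.inl (hAd x y hxy hy)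
    · exact Or.inr ⟨u, hu, ht _ _ _ hxy hyu⟩
  · rw [isOpen_iff_mem_nhds]
    intro x hx
    by_cases hxK : x ∈ ⋃ n, K n
    · refine mem_of_superset (hVWn x (hVinc x hxK hx)) ?_
      intro y hy
      exact Or.inr ⟨y, hy, hr y⟩
    · exact mem_of_superset ((hiso x hxK).mem_nhds rfl) (singleton_subset_iff.2 hx)
  · rintro x y hxy (hx | ⟨v, hv, hvx⟩)
    · exact Or.inl (hBi x y hxy hx)
    · exact Or.inr ⟨v, hv, ht _ _ _ hvx hxy⟩
  · rw [Set.disjoint_left]
    rintro x (hx | ⟨u, hu, hxu⟩) (hx' | ⟨v, hv, hvx⟩)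
    · exact Set.disjoint_left.1 hAB hx hx'
    · have : v ∈ UW := hUdec v (hVWK hv) (Or.inl (hAd v x hvx hx))
      exact hnoVU v hv v this (hr v)
    · have : u ∈ VW := hVinc u (hUWK hu) (Or.inl (hBi x u hxu hx'))
      exact hnoVU u this u hu (hr u)
    · exact hnoVU v hv u hu (ht _ _ _ hvx hxu)


/-- Normality when the non-isolated points lie in a compact set. -/
lemma nrm_of_compact_derived [T2Space X] {R : X → X → Prop} (hr : ∀ x, R x x)
    (ht : ∀ x y z, R x y → R y z → R x z) (hR : IsClosed {p : X × X | R p.1 p.2})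
    (K : Set X) (hK : IsCompact K) (hiso : ∀ x, x ∉ K → IsOpen ({x} : Set X)) : Nrm R := by
  classical
  intro A B hA hAd hB hBi hAB
  obtain ⟨g, hg, hgm, hg0, hg1⟩ := compact_fun hr ht hR hK hA hB
    (fun x _ y _ hxy hy => hAd x y hxy hy) (fun x _ y _ hxy hx => hBi x y hxy hx)
    (fun x _ h1 h2 => Set.disjoint_left.1 hAB h1 h2)
  let c : ℕ → ℝ := fun j => 1 / 2 + 1 / (4 * (j + 1))
  let d : ℕ → ℝ := fun j => (c j + c (j + 1)) / 2
  have hc1 : ∀ j, 1 / 2 < c j := by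
    intro j
    have : (0 : ℝ) < 1 / (4 * (j + 1)) := by positivity
    simp only [c]; linarith
  have hc2 : ∀ j, c j ≤ 3 / 4 := by
    intro j
    have : 1 / (4 * ((j : ℝ) + 1)) ≤ 1 / 4 := by
      apply one_div_le_one_div_of_le (by norm_num)
      have : (0 : ℝ) ≤ j := Nat.cast_nonneg j
      linarith
    simp only [c]; linarith
  have hc3 : ∀ j, c (j + 1) < c j := by
    intro j
    have : 1 / (4 * (((j + 1 : ℕ) : ℝ) + 1)) < 1 / (4 * ((j : ℝ) + 1)) := by
      apply one_div_lt_one_div_of_lt (by positivity)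
      push_cast; linarith
    simp only [c]; linarith
  have hd1 : ∀ j, d j < c j := fun j => by have := hc3 j; simp only [d]; linarith
  have hd2 : ∀ j, c (j + 1) < d j := fun j => by have := hc3 j; simp only [d]; linarith
  have hd3 : ∀ j, 1 / 2 < d j := fun j => (hc1 (j + 1)).trans (hd2 j)
  clear_value d c
  have cge : ∀ t : ℝ, IsCompact {x ∈ K | t ≤ g x} := fun t =>
    hK.of_isClosed_subset (hg.preimage_isClosed_of_isClosed hK.isClosed isClosed_Ici)
      inter_subset_left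
  have cle : ∀ t : ℝ, IsCompact {x ∈ K | g x ≤ t} := fun t =>
    hK.of_isClosed_subset (hg.preimage_isClosed_of_isClosed hK.isClosed isClosed_Iic)
      inter_subset_left
  have tube : ∀ s t : ℝ, t < s → ∃ N M : Set X, IsOpen N ∧ IsOpen M ∧ {x ∈ K | s ≤ g x} ⊆ N ∧
      {x ∈ K | g x ≤ t} ⊆ M ∧ ∀ x ∈ N, ∀ y ∈ M, ¬ R x y := by
    intro s t hst
    have h1 : {x ∈ K | s ≤ g x} ×ˢ {x ∈ K | g x ≤ t} ⊆ {p : X × X | R p.1 p.2}ᶜ := by
      rintro ⟨x, y⟩ ⟨⟨hx, hx'⟩, ⟨hy, hy'⟩⟩ hxy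
      simp only at hx hx' hy hy' hxy
      have := hgm x hx y hy hxy
      linarith
    obtain ⟨N, M, hN, hM, h2, h3, h4⟩ := generalized_tube_lemma (cge s) (cle t) hR.isOpen_compl h1
    exact ⟨N, M, hN, hM, h2, h3, fun x hx y hy hxy => h4 (mk_mem_prod hx hy) hxy⟩
  choose N0 M hN0 hM hPN hQM hNM using fun j => tube (c j) (d j) (hd1 j)
  choose M' N0' hM' hN0' hPM' hQN' hMN' using fun j => tube (1 - d j) (1 - c j)
    (by have := hd1 j; linarith)
  let N : ℕ → Set X := fun j => N0 j ∩ (⋂ k ∈ Finset.range (j + 1), M' k) ∩ Aᶜ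
  let N' : ℕ → Set X := fun j => N0' j ∩ (⋂ k ∈ Finset.range (j + 1), M k) ∩ Bᶜ
  have hNo : ∀ j, IsOpen (N j) := fun j =>
    ((hN0 j).inter (isOpen_biInter_finset fun k _ => hM' k)).inter hA.isOpen_compl
  have hNo' : ∀ j, IsOpen (N' j) := fun j =>
    ((hN0' j).inter (isOpen_biInter_finset fun k _ => hM k)).inter hB.isOpen_compl
  have hPj : ∀ j, ∀ x ∈ K, c j ≤ g x → x ∈ N j := by
    intro j x hx hgx
    refine ⟨⟨hPN j ⟨hx, hgx⟩, ?_⟩, ?_⟩
    · simp only [mem_iInter]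
      intro k _
      refine hPM' k ⟨hx, ?_⟩
      have := hc1 j; have := hd3 k; linarith
    · intro hxA
      have := hg0 x hx hxA; have := hc1 j; linarith
  have hQj : ∀ j, ∀ x ∈ K, g x ≤ 1 - c j → x ∈ N' j := by
    intro j x hx hgx
    refine ⟨⟨hQN' j ⟨hx, hgx⟩, ?_⟩, ?_⟩
    · simp only [mem_iInter]
      intro k _
      refine hQM k ⟨hx, ?_⟩
      have := hc1 j; have := hd3 k; linarith
    · intro hxB
      have := hg1 x hx hxB; have := hc1 j; linarith
  refine ⟨A ∪ {x | ∃ j, ∃ u ∈ N' j, R x u}, B ∪ {x | ∃ j, ∃ v ∈ N j, R v x}, ?_, ?_, ?_, ?_,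
    subset_union_left, subset_union_left, ?_⟩
  · rw [isOpen_iff_mem_nhds]
    intro x hx
    by_cases hxK : x ∈ K
    · have key : ∃ j, x ∈ N' j := by
        rcases hx with hx | ⟨j, u, hu, hxu⟩
        · refine ⟨0, hQj 0 x hxK ?_⟩
          rw [hg0 x hxK hx]
          have := hc2 0; linarith
        · refine ⟨j + 1, hQj (j + 1) x hxK ?_⟩
          have h1 : x ∉ M' j := fun h => hMN' j x h u hu.1.1 hxu
          have h2 : ¬ (1 - d j ≤ g x) := fun h => h1 (hPM' j ⟨hxK, h⟩)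
          have := hd2 j
          linarith [not_le.1 h2]
      obtain ⟨j, hj⟩ := key
      refine mem_of_superset ((hNo' j).mem_nhds hj) ?_
      intro y hy
      exact Or.inr ⟨j, y, hy, hr y⟩
    · exact mem_of_superset ((hiso x hxK).mem_nhds rfl) (singleton_subset_iff.2 hx)
  · rintro x y hxy (hy | ⟨j, u, hu, hyu⟩)
    · exact Or.inl (hAd x y hxy hy)
    · exact Or.inr ⟨j, u, hu, ht _ _ _ hxy hyu⟩
  · rw [isOpen_iff_mem_nhds]
    intro x hx
    by_cases hxK : x ∈ K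
    · have key : ∃ j, x ∈ N j := by
        rcases hx with hx | ⟨j, v, hv, hvx⟩
        · refine ⟨0, hPj 0 x hxK ?_⟩
          rw [hg1 x hxK hx]
          have := hc2 0; linarith
        · refine ⟨j + 1, hPj (j + 1) x hxK ?_⟩
          have h1 : x ∉ M j := fun h => hNM j v hv.1.1 x h hvx
          have h2 : ¬ (g x ≤ d j) := fun h => h1 (hQM j ⟨hxK, h⟩)
          have := hd2 j
          linarith [not_le.1 h2]
      obtain ⟨j, hj⟩ := key
      refine mem_of_superset ((hNo j).mem_nhds hj) ?_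
      intro y hy
      exact Or.inr ⟨j, y, hy, hr y⟩
    · exact mem_of_superset ((hiso x hxK).mem_nhds rfl) (singleton_subset_iff.2 hx)
  · rintro x y hxy (hx | ⟨j, v, hv, hvx⟩)
    · exact Or.inl (hBi x y hxy hx)
    · exact Or.inr ⟨j, v, hv, ht _ _ _ hvx hxy⟩
  · rw [Set.disjoint_left]
    rintro x (hx | ⟨k, u, hu, hxu⟩) (hx' | ⟨j, v, hv, hvx⟩)
    · exact Set.disjoint_left.1 hAB hx hx'
    · exact hv.2 (hAd v x hvx hx)
    · exact hu.2 (hBi x u hxu hx')
    · have hvu : R v u := ht _ _ _ hvx hxu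
      rcases le_or_gt j k with hjk | hjk
      · have h1 : u ∈ M j := by
          have := hu.1.2
          simp only [mem_iInter] at this
          exact this j (Finset.mem_range.2 (by omega))
        exact hNM j v hv.1.1 u h1 hvu
      · have h1 : v ∈ M' k := by
          have := hv.1.2
          simp only [mem_iInter] at this
          exact this k (Finset.mem_range.2 (by omega))
        exact hMN' k v h1 u hu.1.1 hvu

/-- A normal closed preorder is weakly continuous. -/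
lemma wc_of_nrm [T1Space X] {R : X → X → Prop} (hr : ∀ x, R x x)
    (ht : ∀ x y z, R x y → R y z → R x z) (hR : IsClosed {p : X × X | R p.1 p.2})
    (hN : Nrm R) (x y : X) (hyx : ¬ R y x) :
    ∃ f : X → ℝ, Continuous f ∧ (∀ a b, R a b → f a ≤ f b) ∧ f x < f y := by
  have hA : IsClosed {a | ∃ b ∈ ({x} : Set X), R a b} := isClosed_down hR isCompact_singleton
  have hB : IsClosed {b | ∃ a ∈ ({y} : Set X), R a b} := isClosed_up hR isCompact_singleton
  obtain ⟨f, hf, hfm, hf0, hf1⟩ := urysohn hN hA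
    (by rintro a b hab ⟨w, hw, hbw⟩; exact ⟨w, hw, ht _ _ _ hab hbw⟩) hB
    (by rintro a b hab ⟨w, hw, hwa⟩; exact ⟨w, hw, ht _ _ _ hwa hab⟩)
    (Set.disjoint_left.2 (by
      rintro a ⟨w, rfl, haw⟩ ⟨w', rfl, hwa⟩
      exact hyx (ht _ _ _ hwa haw)))
  refine ⟨f, hf, hfm, ?_⟩
  rw [hf0 x ⟨x, rfl, hr x⟩, hf1 y ⟨y, rfl, hr y⟩]
  norm_num


/-- The set `D` is locally finite: every point has a neighbourhood with finitely many points
of `D`. -/
def LF (D : Set X) : Prop := ∀ x, ∃ N ∈ 𝓝 x, (N ∩ D).Finite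

lemma LF.isClosed [T1Space X] {D S : Set X} (hD : LF D) (hS : S ⊆ D) : IsClosed S := by
  rw [← isOpen_compl_iff, isOpen_iff_mem_nhds]
  intro x hx
  obtain ⟨N, hN, hfin⟩ := hD x
  have hfin' : (N ∩ S).Finite := hfin.subset (inter_subset_inter_right N hS)
  have : (N ∩ S)ᶜ ∈ 𝓝 x := hfin'.isClosed.isOpen_compl.mem_nhds fun h => hx h.2
  filter_upwards [hN, this] with y hy1 hy2 hy3 using hy2 ⟨hy1, hy3⟩

lemma exists_LF [ParacompactSpace X] {C : Set X} (hC : IsClosed C) {ι : Type u}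
    (U : ι → Set X) (hU : ∀ i, IsOpen (U i)) (hCU : C ⊆ ⋃ i, U i) :
    ∃ D ⊆ C, LF D ∧ (D.Finite → ∃ t : Finset ι, C ⊆ ⋃ i ∈ t, U i) ∧
      (D.Countable → ∃ t : Set ι, t.Countable ∧ C ⊆ ⋃ i ∈ t, U i) := by
  classical
  rcases isEmpty_or_nonempty X with hX | hX
  · exact ⟨∅, empty_subset _, fun x => isEmptyElim x, fun _ => ⟨∅, fun x => isEmptyElim x⟩,
      fun _ => ⟨∅, countable_empty, fun x => isEmptyElim x⟩⟩
  obtain ⟨v, hv, hCv, hlf, hvU⟩ := precise_refinement_set hC U hU hCU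
  let J : Set ι := {i | (v i ∩ C).Nonempty}
  have hJ : ∀ i ∈ J, ∃ x, x ∈ v i ∩ C := fun i hi => hi
  choose! p hp using hJ
  have hcov : C ⊆ ⋃ i ∈ J, U i := by
    intro x hx
    obtain ⟨i, hi⟩ := mem_iUnion.1 (hCv hx)
    exact mem_iUnion₂.2 ⟨i, ⟨x, hi, hx⟩, hvU i hi⟩
  have hJsub : J ⊆ ⋃ d ∈ p '' J, {i | d ∈ v i} := by
    intro i hi
    exact mem_iUnion₂.2 ⟨p i, mem_image_of_mem p hi, (hp i hi).1⟩
  refine ⟨p '' J, ?_, ?_, ?_, ?_⟩
  · rintro _ ⟨i, hi, rfl⟩
    exact (hp i hi).2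
  · intro x
    obtain ⟨N, hN, hfin⟩ := hlf x
    refine ⟨N, hN, (hfin.image p).subset ?_⟩
    rintro _ ⟨hy, i, hi, rfl⟩
    exact ⟨i, ⟨p i, (hp i hi).1, hy⟩, rfl⟩
  · intro hfin
    have hJf : J.Finite := (hfin.biUnion fun d _ => hlf.point_finite d).subset hJsub
    refine ⟨hJf.toFinset, ?_⟩
    simpa using hcov
  · intro hcount
    have hJc : J.Countable :=
      (hcount.biUnion fun d _ => (hlf.point_finite d).countable).mono hJsub
    exact ⟨J, hJc, hcov⟩

lemma exists_infinite_LF [ParacompactSpace X] {C : Set X} (hC : IsClosed C)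
    (hnc : ¬ IsCompact C) : ∃ D ⊆ C, LF D ∧ D.Infinite := by
  by_contra hcon
  push Not at hcon
  apply hnc
  apply isCompact_of_finite_subcover
  intro ι U hU hCU
  obtain ⟨D, hDC, hLF, h1, _⟩ := exists_LF hC U hU hCU
  exact h1 (hcon D hDC hLF)

lemma exists_uncountable_LF [ParacompactSpace X] {C : Set X} (hC : IsClosed C)
    (hnc : ¬ IsLindelof C) : ∃ D ⊆ C, LF D ∧ ¬ D.Countable := by
  by_contra hcon
  push Not at hcon
  apply hnc
  apply isLindelof_of_countable_subcover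
  intro ι U hU hCU
  obtain ⟨D, hDC, hLF, _, h1⟩ := exists_LF hC U hU hCU
  exact h1 (hcon D hDC hLF)

lemma exists_expansion [T2Space X] [ParacompactSpace X] {D : Set X} (hD : LF D) :
    ∃ O : X → Set X, (∀ d ∈ D, IsOpen (O d)) ∧ (∀ d ∈ D, d ∈ O d) ∧
      (∀ d ∈ D, ∀ e ∈ D, d ≠ e → Disjoint (O d) (O e)) ∧
      (∀ x, ∃ N ∈ 𝓝 x, {d | d ∈ D ∧ (O d ∩ N).Nonempty}.Finite) := by
  classical
  have hDc : IsClosed D := hD.isClosed Subset.rfl
  let u : D → Set X := fun d => (D \ {(d : X)})ᶜ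
  have huo : ∀ d, IsOpen (u d) := fun d => (hD.isClosed sdiff_subset).isOpen_compl
  have hDu : D ⊆ ⋃ d, u d := fun x hx => mem_iUnion.2 ⟨⟨x, hx⟩, fun h => h.2 rfl⟩
  obtain ⟨v, hv, hDv, hlf, hvu⟩ := precise_refinement_set hDc u huo hDu
  obtain ⟨w, hDw, hw, hwv⟩ := exists_subset_iUnion_closure_subset hDc hv
    (fun x _ => hlf.point_finite x) hDv
  have hmw : ∀ d : D, (d : X) ∈ w d := by
    intro d
    obtain ⟨e, he⟩ := mem_iUnion.1 (hDw d.2)
    have h1 : (d : X) ∈ u e := hvu e (hwv e (subset_closure he))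
    have h2 : (d : X) = e := by
      by_contra hne
      exact h1 ⟨d.2, hne⟩
    have : d = e := Subtype.ext h2
    rw [this] at he ⊢
    exact he
  have hcl : LocallyFinite fun e : D => closure (w e) := hlf.subset hwv
  let O : X → Set X := fun x => if h : x ∈ D then
    w ⟨x, h⟩ ∩ (⋃ e : {e : D // (e : X) ≠ x}, closure (w e))ᶜ else ∅
  have hO : ∀ x (h : x ∈ D), O x =
    w ⟨x, h⟩ ∩ (⋃ e : {e : D // (e : X) ≠ x}, closure (w e))ᶜ := fun x h => by simp [O, h]
  refine ⟨O, ?_, ?_, ?_, ?_⟩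
  · intro d hd
    rw [hO d hd]
    refine (hw _).inter ?_
    rw [isOpen_compl_iff]
    exact (hcl.comp_injective Subtype.val_injective).isClosed_iUnion fun _ => isClosed_closure
  · intro d hd
    rw [hO d hd]
    refine ⟨hmw ⟨d, hd⟩, ?_⟩
    simp only [mem_compl_iff, mem_iUnion, not_exists]
    rintro ⟨e, he⟩ hde
    have h1 : d ∈ u e := hvu e (hwv e hde)
    exact h1 ⟨hd, fun h => he (by rw [mem_singleton_iff] at h; exact h.symm)⟩
  · intro d hd e he hde
    rw [hO d hd, hO e he, Set.disjoint_left]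
    rintro x ⟨hx1, _⟩ ⟨_, hx2⟩
    apply hx2
    exact mem_iUnion.2 ⟨⟨⟨d, hd⟩, hde⟩, subset_closure hx1⟩
  · intro x
    obtain ⟨N, hN, hfin⟩ := hlf x
    refine ⟨N, hN, (hfin.image Subtype.val).subset ?_⟩
    rintro d ⟨hd, y, hy, hyN⟩
    rw [hO d hd] at hy
    exact ⟨⟨d, hd⟩, ⟨y, hwv _ (subset_closure hy.1), hyN⟩, rfl⟩

/-- A generalised convergent sequence inside `O`: a sequence `u` outside the nonempty compact
set `L` such that every open set around `L` contains almost all `u k`. -/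
def GenSeq (O : Set X) (u : ℕ → X) (L : Set X) : Prop :=
  (∀ k, u k ∈ O) ∧ IsCompact L ∧ L.Nonempty ∧ L ⊆ O ∧ (∀ k, u k ∉ L) ∧
    ∀ V, IsOpen V → L ⊆ V → ∀ᶠ k in atTop, u k ∈ V

lemma exists_genSeq [T2Space X] {p : X} (hp : ¬ IsOpen ({p} : Set X))
    (h : (𝓝 p).IsCountablyGenerated ∨ ∃ K ∈ 𝓝 p, IsCompact K) {O : Set X} (hO : IsOpen O)
    (hpO : p ∈ O) : ∃ u L, GenSeq O u L := by
  classical
  have hne : (𝓝[≠] p).NeBot := by
    rw [neBot_iff]
    intro h0
    exact hp (isOpen_singleton_iff_punctured_nhds p |>.2 h0)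
  rcases h with h | ⟨K, hK, hKc⟩
  · obtain ⟨u, hu⟩ := exists_seq_tendsto (𝓝[≠] p)
    have h1 : ∀ᶠ k in atTop, u k ∈ O ∧ u k ≠ p := by
      have h2 : ∀ᶠ y in 𝓝[≠] p, y ∈ O ∧ y ≠ p := by
        filter_upwards [mem_nhdsWithin_of_mem_nhds (hO.mem_nhds hpO), self_mem_nhdsWithin]
          with y hy1 hy2 using ⟨hy1, hy2⟩
      exact hu.eventually h2
    obtain ⟨N, hN⟩ := eventually_atTop.1 h1
    have hu' : Tendsto (fun k => u (k + N)) atTop (𝓝 p) :=
      ((tendsto_add_atTop_iff_nat N).2 hu).mono_right nhdsWithin_le_nhds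
    refine ⟨fun k => u (k + N), {p}, fun k => (hN (k + N) (by omega)).1, isCompact_singleton,
      singleton_nonempty p, singleton_subset_iff.2 hpO, fun k hk => (hN (k + N) (by omega)).2 hk, ?_⟩
    intro V hV hLV
    exact hu'.eventually (hV.mem_nhds (hLV rfl))
  · obtain ⟨L, hL, hLc, hLO⟩ := exists_mem_nhds_isCompact_mapsTo_of_isCompact_mem_nhds
      (f := id) continuous_id (hO.mem_nhds hpO) hKc hK
    have hLO' : L ⊆ O := hLO
    have hLinf : L.Infinite := by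
      intro hfin
      have h3 : (L \ {p}).Finite := hfin.subset sdiff_subset
      have h4 : (L \ {p})ᶜ ∈ 𝓝 p := h3.isClosed.isOpen_compl.mem_nhds (by simp)
      have h5 : ({p} : Set X) ∈ 𝓝 p := by
        filter_upwards [hL, h4] with y hy1 hy2
        by_contra hyp
        exact hy2 ⟨hy1, hyp⟩
      exact hp (isOpen_singleton_iff_nhds_eq_pure p |>.2 (by
        rw [← nhdsWithin_singleton]
        exact (nhdsWithin_eq_nhds.2 h5).symm))
    have : Infinite L := hLinf.to_subtype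
    obtain ⟨f, hf⟩ := exists_topology_isEmbedding_nat L
    let u : ℕ → X := fun k => f k
    have hfu : IsEmbedding u := IsEmbedding.subtypeVal.comp hf
    let M : Set X := ⋂ n, closure (u '' Ici n)
    have huL : ∀ k, u k ∈ L := fun k => (f k).2
    have hML : M ⊆ L := by
      intro x hx
      have := mem_iInter.1 hx 0
      refine closure_minimal ?_ hLc.isClosed this
      rintro _ ⟨k, _, rfl⟩
      exact huL k
    have hMcl : IsClosed M := isClosed_iInter fun _ => isClosed_closure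
    have key : ∀ V, IsOpen V → M ⊆ V → ∀ᶠ k in atTop, u k ∈ V := by
      intro V hV hMV
      by_contra hcon
      have hfreq : ∃ᶠ k in atTop, u k ∉ V := by
        rwa [not_eventually] at hcon
      have hcomp : IsCompact (L \ V) := hLc.diff hV
      have : ∃ x ∈ L \ V, MapClusterPt x atTop u :=
        hcomp.exists_mapClusterPt_of_frequently (hfreq.mono fun k hk => ⟨huL k, hk⟩)
      obtain ⟨x, hx, hcx⟩ := this
      apply hx.2
      apply hMV
      refine mem_iInter.2 fun n => ?_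
      rw [mem_closure_iff_nhds]
      intro N hN
      have := (mapClusterPt_iff_frequently.1 hcx) N hN
      obtain ⟨k, hk, hkn⟩ := (this.and_eventually (eventually_ge_atTop n)).exists
      exact ⟨u k, hk, ⟨k, hkn, rfl⟩⟩
    refine ⟨u, M, fun k => hLO' (huL k), hLc.of_isClosed_subset hMcl hML, ?_, hML.trans hLO', ?_,
      key⟩
    · by_contra hemp
      rw [not_nonempty_iff_eq_empty] at hemp
      have := key ∅ isOpen_empty (by rw [hemp])
      obtain ⟨k, hk⟩ := this.exists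
      exact hk
    · intro k hk
      have h6 : IsOpen ({k} : Set ℕ) := isOpen_discrete _
      obtain ⟨V, hV, hVk⟩ := hfu.isInducing.isOpen_iff.1 h6
      have hkV : u k ∈ V := by
        have : k ∈ u ⁻¹' V := by rw [hVk]; rfl
        exact this
      have h7 := mem_iInter.1 hk (k + 1)
      rw [mem_closure_iff] at h7
      obtain ⟨y, hyV, j, hj, rfl⟩ := h7 V hV hkV
      have : j ∈ u ⁻¹' V := hyV
      rw [hVk, mem_singleton_iff] at this
      subst this
      exact absurd hj (by simp)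


/-- Every closed preorder on `X` is weakly continuous. -/
def AllClosedWeaklyCont (X : Type u) [TopologicalSpace X] : Prop :=
  ∀ R : X → X → Prop, (∀ x, R x x) → (∀ x y z, R x y → R y z → R x z) →
    IsClosed {p : X × X | R p.1 p.2} →
    ∀ x y, R x y → ¬ R y x →
      ∃ f : X → ℝ, Continuous f ∧ (∀ a b, R a b → f a ≤ f b) ∧ f x < f y

omit [TopologicalSpace X] in
lemma fin_of_inj {ι : Type*} {D : Set X} {O : X → Set X} {c : ι → X}
    (hc : Function.Injective c) (hcD : ∀ i, c i ∈ D) (S : ι → Set X) (hS : ∀ i, S i ⊆ O (c i))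
    (N : Set X) (hN : {d | d ∈ D ∧ (O d ∩ N).Nonempty}.Finite) :
    {i | (S i ∩ N).Nonempty}.Finite := by
  refine Set.Finite.subset (hN.preimage hc.injOn) ?_
  rintro i ⟨y, hy, hyN⟩
  exact ⟨hcD i, ⟨y, hS i hy, hyN⟩⟩

lemma not_prop_fan [T2Space X] [ParacompactSpace X]
    (H : ∀ p : X, (𝓝 p).IsCountablyGenerated ∨ ∃ K ∈ 𝓝 p, IsCompact K)
    {x : X} (hx : ¬ ∃ K ∈ 𝓝 x, IsCompact K) {D : Set X} (hD : LF D) (hDinf : D.Infinite)
    (hDiso : ∀ d ∈ D, ¬ IsOpen ({d} : Set X)) : ¬ AllClosedWeaklyCont X := by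
  classical
  intro hprop
  -- a locally finite set containing `x` and infinitely many non-isolated points
  have hD1 : LF (insert x (D \ {x})) := by
    intro p
    obtain ⟨N, hN, hfin⟩ := hD p
    refine ⟨N, hN, (hfin.union (finite_singleton x)).subset ?_⟩
    rintro y ⟨hyN, rfl | hy⟩
    · exact Or.inr rfl
    · exact Or.inl ⟨hyN, hy.1⟩
  obtain ⟨O, hOo, hOm, hOd, hOf⟩ := exists_expansion hD1
  have hinf : (D \ {x}).Infinite := hDinf.sdiff (finite_singleton x)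
  let q : ℕ → X := fun n => hinf.natEmbedding _ n
  have hqinj : Function.Injective q :=
    Subtype.val_injective.comp (hinf.natEmbedding _).injective
  have hqD : ∀ n, q n ∈ D \ {x} := fun n => (hinf.natEmbedding _ n).2
  have hqD1 : ∀ n, q n ∈ insert x (D \ {x}) := fun n => Or.inr (hqD n)
  have hqx : ∀ n, q n ≠ x := fun n h => (hqD n).2 h
  have hxD1 : x ∈ insert x (D \ {x}) := Or.inl rfl
  have dqq : ∀ n m p, n ≠ m → p ∈ O (q n) → p ∈ O (q m) → False := fun n m p hnm h1 h2 =>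
    Set.disjoint_left.1 (hOd _ (hqD1 n) _ (hqD1 m) (fun h => hnm (hqinj h))) h1 h2
  have dqx : ∀ n p, p ∈ O (q n) → p ∈ O x → False := fun n p h1 h2 =>
    Set.disjoint_left.1 (hOd _ (hqD1 n) _ hxD1 (hqx n)) h1 h2
  have hgen : ∀ n, ∃ u L, GenSeq (O (q n)) u L := fun n =>
    exists_genSeq (hDiso _ (hqD n).1) (H _) (hOo _ (hqD1 n)) (hOm _ (hqD1 n))
  obtain ⟨y, Ly, hyO, hLyc, hLyne, hLyO, hyL, hyconv⟩ := hgen 0
  choose z L hz using fun n => hgen (n + 1)
  have hzO : ∀ n k, z n k ∈ O (q (n + 1)) := fun n k => (hz n).1 k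
  have hLc : ∀ n, IsCompact (L n) := fun n => (hz n).2.1
  have hLO : ∀ n, L n ⊆ O (q (n + 1)) := fun n => (hz n).2.2.2.1
  have hLne : ∀ n, (L n).Nonempty := fun n => (hz n).2.2.1
  have hzL : ∀ n k, z n k ∉ L n := fun n k => (hz n).2.2.2.2.1 k
  have hzconv : ∀ n V, IsOpen V → L n ⊆ V → ∀ᶠ k in atTop, z n k ∈ V :=
    fun n => (hz n).2.2.2.2.2
  -- the fan at `x`
  have hxc : (𝓝 x).IsCountablyGenerated := (H x).resolve_right hx
  obtain ⟨B, hB⟩ := (𝓝 x).exists_antitone_basis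
  have hw : ∀ n, ∃ w : ℕ → X, ∃ E : Set X, LF E ∧ Function.Injective w ∧
      (∀ k, w k ∈ E) ∧ ∀ k, w k ∈ B n ∧ w k ∈ O x ∧ w k ≠ x := by
    intro n
    have h1 : B n ∩ O x ∈ 𝓝 x := inter_mem (hB.1.mem_of_mem trivial) ((hOo x hxD1).mem_nhds
      (hOm x hxD1))
    obtain ⟨C, hC, hCc, hCB⟩ := exists_mem_nhds_isClosed_subset h1
    have hCnc : ¬ IsCompact C := fun h => hx ⟨C, hC, h⟩
    obtain ⟨E, hEC, hELF, hEinf⟩ := exists_infinite_LF hCc hCnc
    have hE' : (E \ {x}).Infinite := hEinf.sdiff (finite_singleton x)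
    refine ⟨fun k => hE'.natEmbedding _ k, E, hELF,
      Subtype.val_injective.comp (hE'.natEmbedding _).injective,
      fun k => (hE'.natEmbedding _ k).2.1, fun k => ?_⟩
    have h2 := (hE'.natEmbedding _ k).2
    exact ⟨(hCB (hEC h2.1)).1, (hCB (hEC h2.1)).2, fun h => h2.2 h⟩
  choose w E hELF hwinj hwE hwB hwO hwx using fun n => (by
    obtain ⟨w, E, h1, h2, h3, h4⟩ := hw n
    exact ⟨w, E, h1, h2, h3, fun k => (h4 k).1, fun k => (h4 k).2.1, fun k => (h4 k).2.2⟩ :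
      ∃ w : ℕ → X, ∃ E : Set X, LF E ∧ Function.Injective w ∧
      (∀ k, w k ∈ E) ∧ (∀ k, w k ∈ B n) ∧ (∀ k, w k ∈ O x) ∧ (∀ k, w k ≠ x))
  have hxO : x ∈ O x := hOm x hxD1
  -- the preorder
  let R : X → X → Prop := fun a b => a = b ∨ (∃ n k, a = w n k ∧ b = z n k) ∨
    (∃ n, a ∈ L n ∧ b = y n) ∨ (a ∈ Ly ∧ b ∈ Ly) ∨ (a ∈ Ly ∧ b = x)
  have hRr : ∀ a, R a a := fun a => Or.inl rfl
  have hRt : ∀ a b c, R a b → R b c → R a c := by
    rintro a b c hab hbc
    rcases hab with rfl | hab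
    · exact hbc
    rcases hbc with rfl | hbc
    · exact Or.inr hab
    rcases hab with ⟨n, k, rfl, rfl⟩ | ⟨n, ha, rfl⟩ | ⟨ha, hb⟩ | ⟨ha, rfl⟩
    · exfalso
      rcases hbc with ⟨n', k', h, _⟩ | ⟨m, h, _⟩ | ⟨h, _⟩ | ⟨h, _⟩
      · exact dqx (n + 1) _ (hzO n k) (h ▸ hwO n' k')
      · by_cases hmn : m = n
        · subst hmn; exact hzL _ k h
        · exact dqq (n + 1) (m + 1) _ (by omega) (hzO n k) (hLO m h)
      · exact dqq (n + 1) 0 _ (by omega) (hzO n k) (hLyO h)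
      · exact dqq (n + 1) 0 _ (by omega) (hzO n k) (hLyO h)
    · exfalso
      rcases hbc with ⟨n', k', h, _⟩ | ⟨m, h, _⟩ | ⟨h, _⟩ | ⟨h, _⟩
      · exact dqx 0 _ (hyO n) (h ▸ hwO n' k')
      · exact dqq 0 (m + 1) _ (by omega) (hyO n) (hLO m h)
      · exact hyL n h
      · exact hyL n h
    · rcases hbc with ⟨n', k', h, _⟩ | ⟨m, h, _⟩ | ⟨_, h⟩ | ⟨_, h⟩
      · exact (dqx 0 _ (hLyO hb) (h ▸ hwO n' k')).elim
      · exact (dqq 0 (m + 1) _ (by omega) (hLyO hb) (hLO m h)).elim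
      · exact Or.inr (Or.inr (Or.inr (Or.inl ⟨ha, h⟩)))
      · exact Or.inr (Or.inr (Or.inr (Or.inr ⟨ha, h⟩)))
    · exfalso
      rcases hbc with ⟨n', k', h, _⟩ | ⟨m, h, _⟩ | ⟨h, _⟩ | ⟨h, _⟩
      · exact hwx n' k' h.symm
      · exact dqx (m + 1) _ (hLO m h) hxO
      · exact dqx 0 _ (hLyO h) hxO
      · exact dqx 0 _ (hLyO h) hxO
  have hRc : IsClosed {p : X × X | R p.1 p.2} := by
    have e : {p : X × X | R p.1 p.2} = {p | p.1 = p.2} ∪
        ((⋃ i : ℕ × ℕ, {(w i.1 i.2, z i.1 i.2)}) ∪ ((⋃ n, L n ×ˢ {y n}) ∪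
          (Ly ×ˢ Ly ∪ Ly ×ˢ {x}))) := by
      ext ⟨a, b⟩
      simp only [R, mem_union, mem_iUnion, mem_prod, mem_singleton_iff, Prod.mk.injEq,
        Prod.exists]
      rfl
    rw [e]
    refine isClosed_diagonal.union (IsClosed.union ?_ (IsClosed.union ?_ ?_))
    · refine LocallyFinite.isClosed_iUnion ?_ fun _ => isClosed_singleton
      rintro ⟨a, b⟩
      obtain ⟨Nb, hNb, hfin⟩ := hOf b
      have hF : {n : ℕ | (O (q (n + 1)) ∩ Nb).Nonempty}.Finite :=
        fin_of_inj (c := fun n : ℕ => q (n + 1)) (fun m n h => by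
          have := hqinj h; omega) (fun n => hqD1 (n + 1)) (fun n => O (q (n + 1)))
          (fun _ => Subset.rfl) Nb hfin
      choose M hM hMf using fun n => hELF n a
      have hMf' : ∀ n, {k | w n k ∈ M n}.Finite := by
        intro n
        refine Set.Finite.subset ((hMf n).preimage (hwinj n).injOn) ?_
        intro k hk
        exact ⟨hk, hwE n k⟩
      refine ⟨(⋂ n ∈ hF.toFinset, M n) ×ˢ Nb, prod_mem_nhds ?_ hNb, ?_⟩
      · exact (Filter.biInter_finset_mem _).2 fun n _ => hM n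
      · refine Set.Finite.subset (hF.biUnion fun n _ =>
          ((hMf' n).image fun k => (n, k))) ?_
        rintro ⟨n, k⟩ ⟨_, rfl, h1, h2⟩
        simp only at h1 h2
        have hn : n ∈ {n : ℕ | (O (q (n + 1)) ∩ Nb).Nonempty} := ⟨z n k, hzO n k, h2⟩
        refine mem_iUnion₂.2 ⟨n, hn, k, ?_, rfl⟩
        have := mem_iInter₂.1 h1 n (hF.mem_toFinset.2 hn)
        exact this
    · refine LocallyFinite.isClosed_iUnion ?_ fun n => (hLc n).isClosed.prod isClosed_singleton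
      rintro ⟨a, b⟩
      obtain ⟨Na, hNa, hfin⟩ := hOf a
      have hF : {n : ℕ | (L n ∩ Na).Nonempty}.Finite :=
        fin_of_inj (c := fun n : ℕ => q (n + 1)) (fun m n h => by
          have := hqinj h; omega) (fun n => hqD1 (n + 1)) L hLO Na hfin
      refine ⟨Na ×ˢ univ, prod_mem_nhds hNa univ_mem, hF.subset ?_⟩
      rintro n ⟨⟨a', b'⟩, ⟨h1, _⟩, ⟨h2, _⟩⟩
      exact ⟨a', h1, h2⟩
    · exact (hLyc.isClosed.prod hLyc.isClosed).union (hLyc.isClosed.prod isClosed_singleton)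
  obtain ⟨l, hl⟩ := hLyne
  have hlx : R l x := Or.inr (Or.inr (Or.inr (Or.inr ⟨hl, rfl⟩)))
  have hxl : ¬ R x l := by
    rintro (h | ⟨n, k, h, _⟩ | ⟨m, h, _⟩ | ⟨h, _⟩ | ⟨h, _⟩)
    · exact dqx 0 _ (hLyO hl) (h ▸ hxO)
    · exact hwx n k h.symm
    · exact dqx (m + 1) _ (hLO m h) hxO
    · exact dqx 0 _ (hLyO h) hxO
    · exact dqx 0 _ (hLyO h) hxO
  obtain ⟨f, hf, hfm, hflt⟩ := hprop R hRr hRt hRc l x hlx hxl
  set c := (f l + f x) / 2 with hc
  have hV : IsOpen {p | c < f p} := isOpen_lt continuous_const hf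
  have hV' : IsOpen {p | f p < c} := isOpen_lt hf continuous_const
  have hxV : {p | c < f p} ∈ 𝓝 x := hV.mem_nhds (by simp only [mem_ofPred_eq]; linarith)
  obtain ⟨n0, _, hn0⟩ := hB.1.mem_iff.1 hxV
  have hLyV : Ly ⊆ {p | f p < c} := by
    intro p hp
    have : f p ≤ f l := hfm p l (Or.inr (Or.inr (Or.inr (Or.inl ⟨hp, hl⟩))))
    simp only [mem_ofPred_eq]; linarith
  obtain ⟨n, hn1, hn2⟩ := ((hyconv _ hV' hLyV).and (eventually_ge_atTop n0)).exists
  have hLnV : L n ⊆ {p | f p < c} := by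
    intro p hp
    have : f p ≤ f (y n) := hfm p (y n) (Or.inr (Or.inr (Or.inl ⟨n, hp, rfl⟩)))
    have h3 : f (y n) < c := hn1
    simp only [mem_ofPred_eq]; linarith
  obtain ⟨k, hk⟩ := (hzconv n _ hV' hLnV).exists
  have h4 : f (w n k) ≤ f (z n k) := hfm _ _ (Or.inr (Or.inl ⟨n, k, rfl, rfl⟩))
  have h5 : c < f (w n k) := hn0 (hB.2 hn2 (hwB n k))
  have h6 : f (z n k) < c := hk
  linarith


lemma not_prop_uncountable [T2Space X] [ParacompactSpace X]
    (H : ∀ p : X, (𝓝 p).IsCountablyGenerated ∨ ∃ K ∈ 𝓝 p, IsCompact K)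
    {D : Set X} (hD : LF D) (hDunc : ¬ D.Countable)
    (hDiso : ∀ d ∈ D, ¬ IsOpen ({d} : Set X)) : ¬ AllClosedWeaklyCont X := by
  classical
  intro hprop
  obtain ⟨O, hOo, hOm, hOd, hOf⟩ := exists_expansion hD
  -- an index set of order type `ω₁`
  let I : Type u := (Cardinal.aleph 1 : Cardinal.{u}).ord.ToType
  have hIcard : Cardinal.mk I = Cardinal.aleph 1 := Cardinal.mk_ord_toType _
  have hIio : ∀ i : I, (Iio i).Countable := by
    intro i
    have h1 : Cardinal.mk (Iio i) < Cardinal.aleph 1 := Cardinal.mk_Iio_toType_ord_lt i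
    have h2 : Cardinal.mk (Iio i) < Order.succ Cardinal.aleph0 := by
      rw [Cardinal.succ_aleph0]; exact h1
    exact Cardinal.le_aleph0_iff_set_countable.1 (Order.lt_succ_iff.1 h2)
  have hIunc : ¬ (univ : Set I).Countable := by
    intro h
    have h1 := Cardinal.le_aleph0_iff_set_countable.2 h
    rw [Cardinal.mk_univ, hIcard, ← not_lt] at h1
    exact h1 Cardinal.aleph0_lt_aleph_one
  have hcardle : Cardinal.mk (I ⊕ I) ≤ Cardinal.mk D := by
    have h1 : Cardinal.mk (I ⊕ I) = Cardinal.aleph 1 := by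
      rw [Cardinal.mk_sum, Cardinal.lift_id, hIcard]
      exact Cardinal.add_eq_self (Cardinal.aleph0_le_aleph 1)
    rw [h1, ← Cardinal.succ_aleph0, Order.succ_le_iff, ← not_le]
    exact fun h => hDunc (Cardinal.le_aleph0_iff_set_countable.1 h)
  obtain ⟨j⟩ := Cardinal.le_def _ _ |>.1 hcardle
  let a : I → X := fun i => j (Sum.inl i)
  let b : I → X := fun i => j (Sum.inr i)
  have haD : ∀ i, a i ∈ D := fun i => (j (Sum.inl i)).2
  have hbD : ∀ i, b i ∈ D := fun i => (j (Sum.inr i)).2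
  have hainj : Function.Injective a := fun i i' h => by
    have := j.injective (Subtype.ext h)
    exact Sum.inl.inj this
  have hbinj : Function.Injective b := fun i i' h => by
    have := j.injective (Subtype.ext h)
    exact Sum.inr.inj this
  have hab : ∀ i i', a i ≠ b i' := fun i i' h => by
    have := j.injective (Subtype.ext h)
    cases this
  choose u L hu using fun i => exists_genSeq (hDiso _ (haD i)) (H _) (hOo _ (haD i))
    (hOm _ (haD i))
  choose v M hv using fun i => exists_genSeq (hDiso _ (hbD i)) (H _) (hOo _ (hbD i))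
    (hOm _ (hbD i))
  have huO : ∀ i k, u i k ∈ O (a i) := fun i k => (hu i).1 k
  have hvO : ∀ i k, v i k ∈ O (b i) := fun i k => (hv i).1 k
  have hLO : ∀ i, L i ⊆ O (a i) := fun i => (hu i).2.2.2.1
  have hMO : ∀ i, M i ⊆ O (b i) := fun i => (hv i).2.2.2.1
  have daa : ∀ i i' p, i ≠ i' → p ∈ O (a i) → p ∈ O (a i') → False := fun i i' p hi h1 h2 =>
    Set.disjoint_left.1 (hOd _ (haD i) _ (haD i') (fun h => hi (hainj h))) h1 h2
  have dbb : ∀ i i' p, i ≠ i' → p ∈ O (b i) → p ∈ O (b i') → False := fun i i' p hi h1 h2 =>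
    Set.disjoint_left.1 (hOd _ (hbD i) _ (hbD i') (fun h => hi (hbinj h))) h1 h2
  have dab : ∀ i i' p, p ∈ O (a i) → p ∈ O (b i') → False := fun i i' p h1 h2 =>
    Set.disjoint_left.1 (hOd _ (haD i) _ (hbD i') (hab i i')) h1 h2
  -- the functions `e α`, injective below `α`
  choose e he using fun i : I => Set.countable_iff_exists_injOn.1 (hIio i)
  let PA : Set X := ⋃ i, L i
  let PB : Set X := ⋃ i, M i
  have hLf : LocallyFinite L := by
    intro p
    obtain ⟨N, hN, hfin⟩ := hOf p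
    exact ⟨N, hN, fin_of_inj hainj haD L hLO N hfin⟩
  have hMf : LocallyFinite M := by
    intro p
    obtain ⟨N, hN, hfin⟩ := hOf p
    exact ⟨N, hN, fin_of_inj hbinj hbD M hMO N hfin⟩
  have hPA : IsClosed PA := hLf.isClosed_iUnion fun i => (hu i).2.1.isClosed
  have hPB : IsClosed PB := hMf.isClosed_iUnion fun i => (hv i).2.1.isClosed
  have huPA : ∀ i k, u i k ∉ PA := by
    intro i k h
    obtain ⟨i', h⟩ := mem_iUnion.1 h
    by_cases hi : i = i'
    · subst hi; exact (hu i).2.2.2.2.1 k h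
    · exact daa i i' _ hi (huO i k) (hLO i' h)
  have huPB : ∀ i k, u i k ∉ PB := by
    intro i k h
    obtain ⟨i', h⟩ := mem_iUnion.1 h
    exact dab i i' _ (huO i k) (hMO i' h)
  have hvPB : ∀ i k, v i k ∉ PB := by
    intro i k h
    obtain ⟨i', h⟩ := mem_iUnion.1 h
    by_cases hi : i = i'
    · subst hi; exact (hv i).2.2.2.2.1 k h
    · exact dbb i i' _ hi (hvO i k) (hMO i' h)
  have hvPA : ∀ i k, v i k ∉ PA := by
    intro i k h
    obtain ⟨i', h⟩ := mem_iUnion.1 h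
    exact dab i' i _ (hLO i' h) (hvO i k)
  have hAB : ∀ p, p ∈ PA → p ∈ PB → False := by
    intro p h1 h2
    obtain ⟨i, h1⟩ := mem_iUnion.1 h1
    obtain ⟨i', h2⟩ := mem_iUnion.1 h2
    exact dab i i' _ (hLO i h1) (hMO i' h2)
  have huv : ∀ i k i' k', u i k ≠ v i' k' := fun i k i' k' h =>
    dab i i' _ (huO i k) (h ▸ hvO i' k')
  let R : X → X → Prop := fun p q => p = q ∨ (∃ α β, β < α ∧ p = u α (e α β) ∧ q = v β (e α β)) ∨
    (p ∈ PA ∧ q ∈ PA) ∨ (p ∈ PB ∧ q ∈ PB) ∨ (p ∈ PB ∧ q ∈ PA)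
  have hRr : ∀ p, R p p := fun p => Or.inl rfl
  have hRt : ∀ p q r, R p q → R q r → R p r := by
    rintro p q r hpq hqr
    rcases hpq with rfl | hpq
    · exact hqr
    rcases hqr with rfl | hqr
    · exact Or.inr hpq
    rcases hpq with ⟨α, β, _, rfl, rfl⟩ | ⟨h1, h2⟩ | ⟨h1, h2⟩ | ⟨h1, h2⟩
    · exfalso
      rcases hqr with ⟨α', β', _, h, _⟩ | ⟨h, _⟩ | ⟨h, _⟩ | ⟨h, _⟩
      · exact huv _ _ _ _ h.symm
      · exact hvPA _ _ h
      · exact hvPB _ _ h
      · exact hvPB _ _ h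
    · rcases hqr with ⟨α', β', _, h, _⟩ | ⟨h, h'⟩ | ⟨h, h'⟩ | ⟨h, h'⟩
      · exact (huPA _ _ (h ▸ h2)).elim
      · exact Or.inr (Or.inr (Or.inl ⟨h1, h'⟩))
      · exact (hAB _ h2 h).elim
      · exact (hAB _ h2 h).elim
    · rcases hqr with ⟨α', β', _, h, _⟩ | ⟨h, h'⟩ | ⟨h, h'⟩ | ⟨h, h'⟩
      · exact (huPB _ _ (h ▸ h2)).elim
      · exact (hAB _ h h2).elim
      · exact Or.inr (Or.inr (Or.inr (Or.inl ⟨h1, h'⟩)))
      · exact Or.inr (Or.inr (Or.inr (Or.inr ⟨h1, h'⟩)))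
    · rcases hqr with ⟨α', β', _, h, _⟩ | ⟨h, h'⟩ | ⟨h, h'⟩ | ⟨h, h'⟩
      · exact (huPA _ _ (h ▸ h2)).elim
      · exact Or.inr (Or.inr (Or.inr (Or.inr ⟨h1, h'⟩)))
      · exact (hAB _ h2 h).elim
      · exact (hAB _ h2 h).elim
  have hRc : IsClosed {p : X × X | R p.1 p.2} := by
    have e1 : {p : X × X | R p.1 p.2} = {p | p.1 = p.2} ∪
        ((⋃ i : {i : I × I // i.2 < i.1}, {(u i.1.1 (e i.1.1 i.1.2), v i.1.2 (e i.1.1 i.1.2))}) ∪
          (PA ×ˢ PA ∪ (PB ×ˢ PB ∪ PB ×ˢ PA))) := by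
      ext ⟨p, q⟩
      simp only [R, mem_union, mem_iUnion, mem_prod, mem_singleton_iff, Prod.mk.injEq,
        Subtype.exists, Prod.exists, exists_prop]
      rfl
    rw [e1]
    refine isClosed_diagonal.union (IsClosed.union ?_ ((hPA.prod hPA).union
      ((hPB.prod hPB).union (hPB.prod hPA))))
    refine LocallyFinite.isClosed_iUnion ?_ fun _ => isClosed_singleton
    rintro ⟨p, q⟩
    obtain ⟨Np, hNp, hfp⟩ := hOf p
    obtain ⟨Nq, hNq, hfq⟩ := hOf q
    have hFp := fin_of_inj hainj haD (fun i => O (a i)) (fun _ => Subset.rfl) Np hfp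
    have hFq := fin_of_inj hbinj hbD (fun i => O (b i)) (fun _ => Subset.rfl) Nq hfq
    refine ⟨Np ×ˢ Nq, prod_mem_nhds hNp hNq, ?_⟩
    refine Set.Finite.subset ((hFp.prod hFq).preimage Subtype.val_injective.injOn) ?_
    rintro ⟨⟨α, β⟩, hβ⟩ ⟨_, rfl, h1, h2⟩
    exact ⟨⟨_, huO α _, h1⟩, ⟨_, hvO β _, h2⟩⟩
  have hIne : Nonempty I := by
    by_contra h
    rw [not_nonempty_iff] at h
    exact hIunc (by rw [univ_eq_empty_iff.2 h]; exact countable_empty)
  obtain ⟨i0⟩ := hIne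
  obtain ⟨l, hl⟩ := (hu i0).2.2.1
  obtain ⟨m, hm⟩ := (hv i0).2.2.1
  have hlA : l ∈ PA := mem_iUnion.2 ⟨i0, hl⟩
  have hmB : m ∈ PB := mem_iUnion.2 ⟨i0, hm⟩
  have hml : R m l := Or.inr (Or.inr (Or.inr (Or.inr ⟨hmB, hlA⟩)))
  have hlm : ¬ R l m := by
    rintro (h | ⟨α, β, _, h, _⟩ | ⟨_, h⟩ | ⟨h, _⟩ | ⟨h, _⟩)
    · exact hAB _ hlA (h ▸ hmB)
    · exact huPA _ _ (h ▸ hlA)
    · exact hAB _ h hmB
    · exact hAB _ hlA h
    · exact hAB _ hlA h
  obtain ⟨f, hf, hfm, hflt⟩ := hprop R hRr hRt hRc m l hml hlm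
  set c := (f l + f m) / 2 with hc
  have hV : IsOpen {p | c < f p} := isOpen_lt continuous_const hf
  have hV' : IsOpen {p | f p < c} := isOpen_lt hf continuous_const
  have hPAV : ∀ i, L i ⊆ {p | c < f p} := by
    intro i p hp
    have : f l ≤ f p := hfm l p (Or.inr (Or.inr (Or.inl ⟨hlA, mem_iUnion.2 ⟨i, hp⟩⟩)))
    simp only [mem_ofPred_eq]; linarith
  have hPBV : ∀ i, M i ⊆ {p | f p < c} := by
    intro i p hp
    have : f p ≤ f m := hfm p m (Or.inr (Or.inr (Or.inr (Or.inl ⟨mem_iUnion.2 ⟨i, hp⟩, hmB⟩))))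
    simp only [mem_ofPred_eq]; linarith
  choose KA hKA using fun i => eventually_atTop.1 ((hu i).2.2.2.2.2 _ hV (hPAV i))
  choose KB hKB using fun i => eventually_atTop.1 ((hv i).2.2.2.2.2 _ hV' (hPBV i))
  have unc : ∀ K : I → ℕ, ∃ k, ¬ {i | K i ≤ k}.Countable := by
    intro K
    by_contra hcon
    push Not at hcon
    apply hIunc
    have : (univ : Set I) ⊆ ⋃ k, {i | K i ≤ k} := fun i _ => mem_iUnion.2 ⟨K i, le_refl (K i)⟩
    exact (countable_iUnion hcon).mono this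
  obtain ⟨k1, hk1⟩ := unc KA
  obtain ⟨k2, hk2⟩ := unc KB
  have hinf2 : {i | KB i ≤ k2}.Infinite := fun h => hk2 h.countable
  obtain ⟨F, hFsub, hFcard⟩ := hinf2.exists_subset_card_eq (max k1 k2 + 1)
  obtain ⟨α, hα, hαF⟩ : ∃ α, KA α ≤ k1 ∧ ∀ β ∈ F, β < α := by
    by_contra hcon
    push Not at hcon
    apply hk1
    have : {i | KA i ≤ k1} ⊆ ⋃ β ∈ F, Iic β := by
      intro i hi
      obtain ⟨β, hβ, hβi⟩ := hcon i hi
      exact mem_iUnion₂.2 ⟨β, hβ, hβi⟩
    refine Set.Countable.mono this (F.countable_toSet.biUnion fun β _ => ?_)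
    rw [← Iio_union_right]
    exact (hIio β).union (countable_singleton β)
  obtain ⟨β, hβF, hβ⟩ : ∃ β ∈ F, max k1 k2 ≤ e α β := by
    by_contra hcon
    push Not at hcon
    have h1 : (F.image (e α)).card = F.card :=
      Finset.card_image_of_injOn fun x hx y hy h => he α (hαF x hx) (hαF y hy) h
    have h2 : F.image (e α) ⊆ Finset.range (max k1 k2) := by
      intro x hx
      obtain ⟨β, hβ, rfl⟩ := Finset.mem_image.1 hx
      exact Finset.mem_range.2 (hcon β hβ)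
    have h3 := Finset.card_le_card h2
    rw [h1, hFcard, Finset.card_range] at h3
    omega
  have h1 : c < f (u α (e α β)) := hKA α _ (by have := le_max_left k1 k2; omega)
  have h2 : f (v β (e α β)) < c := hKB β _ (by
    have := le_max_right k1 k2
    have h3 : KB β ≤ k2 := hFsub hβF
    omega)
  have h3 : f (u α (e α β)) ≤ f (v β (e α β)) :=
    hfm _ _ (Or.inr (Or.inl ⟨α, β, hαF β hβF, rfl, rfl⟩))
  linarith


/-- The set of non-isolated points of `X` (the derived set of `X`). -/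
def NonIsolated (X : Type u) [TopologicalSpace X] : Set X := {x | ¬ IsOpen ({x} : Set X)}

lemma isClosed_nonIsolated : IsClosed (NonIsolated X) := by
  rw [← isOpen_compl_iff, isOpen_iff_mem_nhds]
  intro x hx
  have hx' : IsOpen ({x} : Set X) := by simpa [NonIsolated] using hx
  filter_upwards [hx'.mem_nhds rfl] with y hy
  rw [mem_singleton_iff] at hy
  rw [hy]; exact hx

lemma sufficiency [T2Space X] (hL : IsLindelof (NonIsolated X))
    (h : IsCompact (NonIsolated X) ∨ LocallyCompactSpace X) : AllClosedWeaklyCont X := by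
  classical
  intro R hr ht hR x y _ hyx
  refine wc_of_nrm hr ht hR ?_ x y hyx
  rcases h with h | h
  · refine nrm_of_compact_derived hr ht hR (NonIsolated X) h fun x hx => ?_
    simpa [NonIsolated] using hx
  · have hK : ∀ x : X, ∃ K ∈ 𝓝 x, IsCompact K := fun x => by
      obtain ⟨K, hK, hx⟩ := exists_compact_mem_nhds x
      exact ⟨K, hx, hK⟩
    choose C hCn hCc using hK
    obtain ⟨t, htc, _, htcov⟩ := hL.elim_nhds_subcover (fun x => C x) (fun x _ => hCn x)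
    -- an enumeration of the compact sets
    obtain ⟨s, hs⟩ : ∃ s : ℕ → Set X, (∀ n, IsCompact (s n)) ∧ NonIsolated X ⊆ ⋃ n, s n := by
      rcases t.eq_empty_or_nonempty with rfl | hne
      · refine ⟨fun _ => ∅, fun _ => isCompact_empty, ?_⟩
        simpa using htcov
      · obtain ⟨g, hg⟩ := htc.exists_eq_range hne
        refine ⟨fun n => C (g n), fun n => hCc _, ?_⟩
        intro p hp
        obtain ⟨q, hq, hpq⟩ := mem_iUnion₂.1 (htcov hp)
        rw [hg] at hq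
        obtain ⟨n, rfl⟩ := hq
        exact mem_iUnion.2 ⟨n, hpq⟩
    obtain ⟨K, hK⟩ := exists_seq (fun n (A : Set X) => IsCompact A ∧ s n ⊆ A)
      (fun _ A B => A ⊆ interior B) ⟨s 0, hs.1 0, Subset.rfl⟩ (by
        rintro n A ⟨hA, _⟩
        obtain ⟨B, hB, hAB⟩ := exists_compact_superset (hA.union (hs.1 (n + 1)))
        refine ⟨B, ⟨hB, ?_⟩, ?_⟩
        · exact (subset_union_right.trans hAB).trans interior_subset
        · exact subset_union_left.trans hAB)
    refine nrm_of_exhaustion hr ht hR K (fun n => (hK n).1.1) (fun n => (hK n).2) ?_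
    intro x hx
    by_contra hiso
    apply hx
    obtain ⟨n, hn⟩ := mem_iUnion.1 (hs.2 (show x ∈ NonIsolated X from hiso))
    exact mem_iUnion.2 ⟨n, (hK n).1.2 hn⟩

/-- `R` is a preorder. -/
def IsPreorderRel (R : X → X → Prop) : Prop :=
  (∀ x, R x x) ∧ ∀ x y z, R x y → R y z → R x z

/-- `R` is closed as a subset of `X × X`. -/
def ClosedRel (R : X → X → Prop) : Prop := IsClosed {p : X × X | R p.1 p.2}

/-- `R` is weakly continuous: strict pairs are separated by continuous increasing functions. -/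
def WeaklyContinuous (R : X → X → Prop) : Prop :=
  ∀ x y, R x y → ¬ R y x →
    ∃ f : X → ℝ, Continuous f ∧ (∀ a b, R a b → f a ≤ f b) ∧ f x < f y

/-- The property of the problem: every closed preorder on `X` is weakly continuous. -/
def EveryClosedPreorderWeaklyContinuous (X : Type u) [TopologicalSpace X] : Prop :=
  ∀ R : X → X → Prop, IsPreorderRel R → ClosedRel R → WeaklyContinuous R

/-- Characterisation of the property for all paracompact Hausdorff spaces in which every point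
has a countable neighbourhood base or a compact neighbourhood. -/
theorem result (X : Type u) [TopologicalSpace X] [T2Space X] [ParacompactSpace X]
    (H : ∀ p : X, (𝓝 p).IsCountablyGenerated ∨ ∃ K ∈ 𝓝 p, IsCompact K) :
    EveryClosedPreorderWeaklyContinuous X ↔
      (IsLindelof (NonIsolated X) ∧ (IsCompact (NonIsolated X) ∨ LocallyCompactSpace X)) := by
  constructor
  · intro hP
    have hP' : AllClosedWeaklyCont X := fun R hr ht hR => hP R ⟨hr, ht⟩ hR
    constructor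
    · by_contra hL
      obtain ⟨D, hDC, hLF, hunc⟩ := exists_uncountable_LF isClosed_nonIsolated hL
      exact not_prop_uncountable H hLF hunc (fun d hd => hDC hd) hP'
    · by_contra hcon
      push Not at hcon
      obtain ⟨hnc, hnl⟩ := hcon
      obtain ⟨x, hx⟩ : ∃ x : X, ¬ ∃ K ∈ 𝓝 x, IsCompact K := by
        by_contra hall
        push Not at hall
        apply hnl
        have : WeaklyLocallyCompactSpace X := ⟨fun x => by
          obtain ⟨K, hK, hKc⟩ := hall x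
          exact ⟨K, hKc, hK⟩⟩
        infer_instance
      obtain ⟨D, hDC, hLF, hinf⟩ := exists_infinite_LF isClosed_nonIsolated hnc
      exact not_prop_fan H hx hLF hinf (fun d hd => hDC hd) hP'
  · rintro ⟨hL, h⟩ R ⟨hr, ht⟩ hR
    exact sufficiency hL h R hr ht hR

end Pool.Agent.Results.MP_bb0bf1_gt.Char
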