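import Mathlib

set_option autoImplicit false

open Set Filter Topology

namespace Pool.Agent.Results.MP_bb0bf1_gt.Equivalents

universe u

variable {X : Type u} [TopologicalSpace X]

/-- `S` is increasing (upward closed) for the relation `R`. -/
def Inc (R : X → X → Prop) (S : Set X) : Prop := ∀ x y, R x y → x ∈ S → y ∈ S

/-- `S` is decreasing (downward closed) for the relation `R`. -/
def Dec (R : X → X → Prop) (S : Set X) : Prop := ∀ x y, R x y → y ∈ S → x ∈ S

/-- Normality of the relation `R` (in the sense of Nachbin). -/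
def Nrm (R : X → X → Prop) : Prop :=
  ∀ A B : Set X, IsClosed A → Dec R A → IsClosed B → Inc R B → Disjoint A B →
    ∃ U V : Set X, IsOpen U ∧ Dec R U ∧ IsOpen V ∧ Inc R V ∧ A ⊆ U ∧ B ⊆ V ∧ Disjoint U V

omit [TopologicalSpace X] in
lemma Inc.compl {R : X → X → Prop} {S : Set X} (h : Inc R S) : Dec R Sᶜ :=
  fun x y hxy hy hx => hy (h x y hxy hx)

omit [TopologicalSpace X] in
lemma Dec.compl {R : X → X → Prop} {S : Set X} (h : Dec R S) : Inc R Sᶜ :=
  fun x y hxy hx hy => hx (h x y hxy hy)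

/-- Ordered Urysohn lemma. -/
lemma urysohn {R : X → X → Prop} (hN : Nrm R) {A B : Set X} (hA : IsClosed A) (hAd : Dec R A)
    (hB : IsClosed B) (hBi : Inc R B) (hAB : Disjoint A B) :
    ∃ f : X → ℝ, Continuous f ∧ (∀ x y, R x y → f x ≤ f y) ∧ (∀ x ∈ A, f x = 0) ∧
      (∀ x ∈ B, f x = 1) := by
  let P : Set X → Set X → Prop := fun c u =>
    Dec R u ∧ ∃ C, IsClosed C ∧ Dec R C ∧ c ⊆ C ∧ C ⊆ u
  have hP : ∀ {c u : Set X}, IsClosed c → P c u → IsOpen u → c ⊆ u →
      ∃ (v : Set X), IsOpen v ∧ c ⊆ v ∧ closure v ⊆ u ∧ P c v ∧ P (closure v) u := by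
    rintro c u hc ⟨hu, C, hC, hCd, hcC, hCu⟩ huo hcu
    obtain ⟨U, V, hU, hUd, hV, hVi, hCU, huV, hUV⟩ := hN C uᶜ hC hCd huo.isClosed_compl hu.compl
      (disjoint_compl_right_iff_subset.2 hCu)
    have hVc : IsClosed Vᶜ := hV.isClosed_compl
    have hUVc : U ⊆ Vᶜ := hUV.subset_compl_right
    have hVu : Vᶜ ⊆ u := compl_subset_comm.1 huV
    have hcl : closure U ⊆ Vᶜ := closure_minimal hUVc hVc
    exact ⟨U, hU, hcC.trans hCU, hcl.trans hVu, ⟨hUd, C, hC, hCd, hcC, hCU⟩,
      ⟨hu, Vᶜ, hVc, hVi.compl, hcl, hVu⟩⟩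
  let c : Urysohns.CU P :=
    { C := A
      U := Bᶜ
      P_C_U := ⟨hBi.compl, A, hA, hAd, Subset.rfl, hAB.subset_compl_right⟩
      closed_C := hA
      open_U := hB.isOpen_compl
      subset := hAB.subset_compl_right
      hP := hP }
  have mono : ∀ (n : ℕ) (c : Urysohns.CU P) (x y : X), R x y → c.approx n x ≤ c.approx n y := by
    intro n
    induction n with
    | zero =>
      intro c x y hxy
      simp only [Urysohns.CU.approx]
      by_cases hx : x ∈ c.U
      · rw [indicator_of_notMem (by simpa using hx)]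
        exact indicator_nonneg (fun _ _ => zero_le_one) _
      · have hy : y ∉ c.U := fun hy => hx (c.P_C_U.1 x y hxy hy)
        rw [indicator_of_mem (by simpa using hx), indicator_of_mem (by simpa using hy)]
        rfl
    | succ n ih =>
      intro c x y hxy
      simp only [Urysohns.CU.approx]
      exact midpoint_le_midpoint (ih _ _ _ hxy) (ih _ _ _ hxy)
  refine ⟨c.lim, c.continuous_lim, ?_, fun x hx => c.lim_of_mem_C x hx,
    fun x hx => c.lim_of_notMem_U x (by simpa [c] using hx)⟩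
  intro x y hxy
  exact le_of_tendsto_of_tendsto' (c.tendsto_approx_atTop x) (c.tendsto_approx_atTop y)
    fun n => mono n c x y hxy

/-- `R` is a preorder. -/
def IsPreorderRel (R : X → X → Prop) : Prop :=
  (∀ x, R x x) ∧ ∀ x y z, R x y → R y z → R x z

/-- `R` is closed as a subset of `X × X`. -/
def ClosedRel (R : X → X → Prop) : Prop := IsClosed {p : X × X | R p.1 p.2}

/-- `f` is increasing for `R`. -/
def IncreasingFor (R : X → X → Prop) (f : X → ℝ) : Prop := ∀ a b, R a b → f a ≤ f b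

/-- `R` is weakly continuous: strict pairs are separated by continuous increasing functions. -/
def WeaklyContinuous (R : X → X → Prop) : Prop :=
  ∀ x y, R x y → ¬ R y x → ∃ f : X → ℝ, Continuous f ∧ IncreasingFor R f ∧ f x < f y

/-- `R` has a continuous multi-utility representation. -/
def HasMultiUtility (R : X → X → Prop) : Prop :=
  ∃ F : Set (X → ℝ), (∀ f ∈ F, Continuous f ∧ IncreasingFor R f) ∧
    ∀ x y, R x y ↔ ∀ f ∈ F, f x ≤ f y

/-- Every closed preorder on `X` is weakly continuous (the property of Q1). -/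
def AllWeaklyContinuous (X : Type u) [TopologicalSpace X] : Prop :=
  ∀ R : X → X → Prop, IsPreorderRel R → ClosedRel R → WeaklyContinuous R

/-- Every closed preorder on `X` has a continuous multi-utility representation. -/
def AllMultiUtility (X : Type u) [TopologicalSpace X] : Prop :=
  ∀ R : X → X → Prop, IsPreorderRel R → ClosedRel R → HasMultiUtility R

/-- Every closed preorder on `X` is normal. -/
def AllNormal (X : Type u) [TopologicalSpace X] : Prop :=
  ∀ R : X → X → Prop, IsPreorderRel R → ClosedRel R → Nrm R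

lemma closed_lower {R : X → X → Prop} (hR : ClosedRel R) (y : X) : IsClosed {a | R a y} :=
  hR.preimage (f := fun a : X => (a, y)) (by fun_prop)

lemma closed_upper {R : X → X → Prop} (hR : ClosedRel R) (x : X) : IsClosed {b | R x b} :=
  hR.preimage (f := fun b : X => (x, b)) (by fun_prop)

lemma mu_of_wc (h : AllWeaklyContinuous X) : AllMultiUtility X := by
  intro R hp hR
  refine ⟨{f | Continuous f ∧ IncreasingFor R f}, fun f hf => hf, fun x y => ?_⟩
  constructor
  · intro hxy f hf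
    exact hf.2 x y hxy
  · intro hall
    by_contra hxy
    obtain ⟨hr, ht⟩ := hp
    let R' : X → X → Prop := fun a b => R a b ∨ (R a y ∧ R x b)
    have hR' : ClosedRel R' := by
      have h1 : IsClosed ({p : X × X | R p.1 p.2} ∪ ({a | R a y} ×ˢ {b | R x b})) :=
        IsClosed.union hR ((closed_lower hR y).prod (closed_upper hR x))
      exact h1
    have hp' : IsPreorderRel R' := by
      refine ⟨fun a => Or.inl (hr a), ?_⟩
      rintro a b c (hab | ⟨hay, hxb⟩) (hbc | ⟨hby, hxc⟩)
      · exact Or.inl (ht _ _ _ hab hbc)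
      · exact Or.inr ⟨ht _ _ _ hab hby, hxc⟩
      · exact Or.inr ⟨hay, ht _ _ _ hxb hbc⟩
      · exact Or.inr ⟨hay, hxc⟩
    obtain ⟨f, hf, hfi, hlt⟩ := h R' hp' hR' y x (Or.inr ⟨hr y, hr x⟩) (by
      rintro (h1 | ⟨h1, -⟩) <;> exact hxy h1)
    exact absurd (hall f ⟨hf, fun a b hab => hfi a b (Or.inl hab)⟩) (not_le.2 hlt)

lemma wc_of_mu (h : AllMultiUtility X) : AllWeaklyContinuous X := by
  intro R hp hR x y hxy hyx
  obtain ⟨F, hF, hFR⟩ := h R hp hR
  have h1 : ¬ ∀ f ∈ F, f y ≤ f x := fun h2 => hyx ((hFR y x).2 h2)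
  push Not at h1
  obtain ⟨f, hf, hlt⟩ := h1
  exact ⟨f, (hF f hf).1, (hF f hf).2, hlt⟩

lemma normal_of_wc (h : AllWeaklyContinuous X) : AllNormal X := by
  intro R hp hR A B hA hAd hB hBi hAB
  obtain ⟨hr, ht⟩ := hp
  rcases A.eq_empty_or_nonempty with rfl | ⟨a₀, ha₀⟩
  · exact ⟨∅, univ, isOpen_empty, fun _ _ _ h => h.elim, isOpen_univ, fun _ _ _ _ => trivial,
      Subset.rfl, subset_univ _, empty_disjoint _⟩
  rcases B.eq_empty_or_nonempty with rfl | ⟨b₀, hb₀⟩
  · exact ⟨univ, ∅, isOpen_univ, fun _ _ _ _ => trivial, isOpen_empty, fun _ _ _ h => h.elim,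
      subset_univ _, Subset.rfl, disjoint_empty _⟩
  let R' : X → X → Prop := fun a b => R a b ∨ a ∈ A ∨ b ∈ B
  have hR' : ClosedRel R' := by
    have h1 : IsClosed ({p : X × X | R p.1 p.2} ∪ ((Prod.fst ⁻¹' A) ∪ (Prod.snd ⁻¹' B))) :=
      IsClosed.union hR ((hA.preimage continuous_fst).union (hB.preimage continuous_snd))
    exact h1
  have hdis : ∀ z, z ∈ A → z ∉ B := fun z h1 h2 => Set.disjoint_left.1 hAB h1 h2
  have hp' : IsPreorderRel R' := by
    refine ⟨fun a => Or.inl (hr a), ?_⟩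
    rintro a b c (hab | ha | hb) (hbc | hb' | hc)
    · exact Or.inl (ht _ _ _ hab hbc)
    · exact Or.inr (Or.inl (hAd a b hab hb'))
    · exact Or.inr (Or.inr hc)
    · exact Or.inr (Or.inl ha)
    · exact Or.inr (Or.inl ha)
    · exact Or.inr (Or.inl ha)
    · exact Or.inr (Or.inr (hBi b c hbc hb))
    · exact absurd hb (hdis b hb')
    · exact Or.inr (Or.inr hc)
  obtain ⟨f, hf, hfi, hlt⟩ := h R' hp' hR' a₀ b₀ (Or.inr (Or.inl ha₀)) (by
    rintro (h1 | h1 | h1)
    · exact hdis b₀ (hAd b₀ a₀ h1 ha₀) hb₀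
    · exact hdis b₀ h1 hb₀
    · exact hdis a₀ ha₀ h1)
  obtain ⟨m, hm1, hm2⟩ := exists_between hlt
  refine ⟨{x | f x < m}, {x | m < f x}, isOpen_lt hf continuous_const, ?_,
    isOpen_lt continuous_const hf, ?_, ?_, ?_, ?_⟩
  · intro x y hxy hy
    exact lt_of_le_of_lt (hfi x y (Or.inl hxy)) hy
  · intro x y hxy hx
    exact lt_of_lt_of_le hx (hfi x y (Or.inl hxy))
  · intro x hx
    exact lt_of_le_of_lt (hfi x a₀ (Or.inr (Or.inl hx))) hm1
  · intro x hx
    exact lt_of_lt_of_le hm2 (hfi b₀ x (Or.inr (Or.inr hx)))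
  · rw [Set.disjoint_left]
    intro x h1 h2
    exact lt_asymm (show f x < m from h1) (show m < f x from h2)

lemma wc_of_normal (h : AllNormal X) : AllWeaklyContinuous X := by
  intro R hp hR x y hxy hyx
  obtain ⟨hr, ht⟩ := hp
  have hN := h R ⟨hr, ht⟩ hR
  obtain ⟨f, hf, hfi, hf0, hf1⟩ := urysohn hN (closed_lower hR x)
    (fun a b hab hb => ht _ _ _ hab hb) (closed_upper hR y) (fun a b hab ha => ht _ _ _ ha hab) (by
      rw [Set.disjoint_left]
      intro z (h1 : R z x) (h2 : R y z)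
      exact hyx (ht _ _ _ h2 h1))
  refine ⟨f, hf, hfi, ?_⟩
  rw [hf0 x (hr x), hf1 y (hr y)]
  exact zero_lt_one

/-- For every topological space, weak continuity of all closed preorders, continuous multi-utility
representability of all closed preorders and normality of all closed preorders are equivalent. -/
theorem result (X : Type u) [TopologicalSpace X] :
    (AllWeaklyContinuous X ↔ AllMultiUtility X) ∧ (AllWeaklyContinuous X ↔ AllNormal X) :=
  ⟨⟨mu_of_wc, wc_of_mu⟩, ⟨normal_of_wc, wc_of_normal⟩⟩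

end Pool.Agent.Results.MP_bb0bf1_gt.Equivalents
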